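import Pool.Agent.R785.LD.Final

/-!
# A CAT(0) group boundary with infinite linearly controlled dimension

The definitions used in the statement are at the beginning of `Pool/Agent/R785/LD/Defs.lean`; the
metric on the boundary is in `Pool/Agent/R785/LD/RayMetric.lean`. A description of the proof is in
`Pool/Agent/R785/LD/NOTES.md`.

The space `X` is a tree of copies of `Y = W × ℝ`, where `W` is a compact convex subset of a Hilbert
space which is invariant under a linear isometry `θ` (a permutation of an orthonormal basis with one
cycle of length `p` for each prime `p`), and two copies of `Y` are glued at one point, the orbit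
points `(θ ^ n w, n)` of the screw motion `(x, t) ↦ (θ x, t + 1)` being the gluing points. The free
product of `ℤ` and `ℤ/2` acts geometrically on `X`. The rays from the centre of a copy of `Y` which
pass through the gates `N + j`, for `j` in a finite set, form a space whose metric, multiplied by
`N`, tends to the metric of the orbit points `θ ^ j w`, and the orbit contains scaled copies of the
Hamming cubes over arbitrarily large alphabets and of arbitrarily large dimension.
-/

namespace Pool.Agent.Results.MP_a015bb_gt.InfiniteLDim

open R785.LD

/-- There are a group `G` acting geometrically on a proper CAT(0) space `X` and a point `x0` of `X`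
such that the boundary of `X` (the rays from `x0`) with the metric
`∫₀^∞ d(α(r), β(r)) e^{-r} dr` has infinite linearly controlled dimension. -/
theorem result :
    ∃ (X : Type) (_ : MetricSpace X) (G : Type) (_ : Group G) (_ : MulAction G X),
      ProperSpace X ∧ IsCAT0 X ∧ IsGeometric G X ∧
        ∃ x0 : X, ∀ n : ℕ, ¬ LDimLE (Ray x0) n :=
  final

end Pool.Agent.Results.MP_a015bb_gt.InfiniteLDim
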